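import Pool.Agent.Y560.TF.Stm

/-!
Project TF: Vaught's conjecture for disjoint unions of pieces of countably many types (VM).
-/

set_option autoImplicit false

namespace Pool.Agent.Y350.TF

open Set MeasureTheory
open Pool.Agent.H899R2.VP (St Adj PIso BF IsoOn idOn inv comp zipSet closed_rank labels scott)
open Pool.Agent.H533R2.VO (RS lift put OS Ic RIso Dich VC BlkV S_FINAL)
open Pool.Agent.H566P (ar R2 v2 a0 a1 lt ac co mk S_ACC S_MSG)
open Pool.Agent.Y560.TG (acc msg lt_mk ac_mk co_mk R2_ext piso_iff riso_iff riso_isoOn meas_lt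
  meas_ac meas_co meas_into cont_into piso_lt piso_ac piso_co piso_eq ex lt_ex ac_ex co_ex_even
  co_ex_odd piso_ex orb orb_ex Nm Off Sm Thin Few bf_trans0 bf_symm0 iso_trans0 iso_symm0
  iso_refl0 S_EXT S_GL S_MAT S_BP mat pick Se)
open Pool.Agent.Y560.TF

/-- the piece of `x` -/
def pc (T : R2) (x : ℕ) : Set ℕ := {z | ac T 0 x z}

/-- the type of a piece -/
noncomputable def col (F : ℕ → R2 × Set ℕ) (T : R2) (x : ℕ) : ℕ :=
  sInf {n | IsoOn (lift (F n).1) (lift T) (F n).2 (pc T x) ∅}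

/-- the minimal elements of the pieces of type `n` -/
def Rp (F : ℕ → R2 × Set ℕ) (T : R2) (n : ℕ) : Set ℕ :=
  {x | (∀ y, ac T 0 x y → x ≤ y) ∧ col F T x = n}

/-- the minimal element of the piece -/
noncomputable def rep (T : R2) (x : ℕ) : ℕ := sInf (pc T x)

section

variable {F : ℕ → R2 × Set ℕ} {T T' : R2}

lemma col_spec (hT : VM F T) (x : ℕ) :
    IsoOn (lift (F (col F T x)).1) (lift T) (F (col F T x)).2 (pc T x) ∅ := by
  have h : {n | IsoOn (lift (F n).1) (lift T) (F n).2 (pc T x) ∅}.Nonempty := hT.2.2.2.2.2 x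
  exact Nat.sInf_mem h

lemma col_eq {x x' : ℕ} (h : IsoOn (lift T) (lift T') (pc T x) (pc T' x') ∅) :
    col F T x = col F T' x' := by
  unfold col
  congr 1
  ext n
  exact ⟨fun h1 => iso_trans0 h1 h, fun h1 => iso_trans0 h1 (iso_symm0 h)⟩

lemma iso_of_col (hT : VM F T) (hT' : VM F T') {x x' : ℕ} (h : col F T x = col F T' x') :
    IsoOn (lift T) (lift T') (pc T x) (pc T' x') ∅ := by
  have h1 := col_spec hT x
  have h2 := col_spec hT' x'
  rw [← h] at h2
  exact iso_trans0 (iso_symm0 h1) h2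

lemma pc_eq (hT : VM F T) {x y : ℕ} (h : ac T 0 x y) : pc T x = pc T y := by
  ext z
  exact ⟨fun h1 => hT.2.2.1 y x z (hT.2.1 x y h) h1, fun h1 => hT.2.2.1 x y z h h1⟩

lemma rep_mem (hT : VM F T) (x : ℕ) : ac T 0 x (rep T x) :=
  Nat.sInf_mem (s := pc T x) ⟨x, hT.1 x⟩

lemma rep_le {x y : ℕ} (h : ac T 0 x y) : rep T x ≤ y := Nat.sInf_le h

lemma rep_eq (hT : VM F T) {x y : ℕ} (h : ac T 0 x y) : rep T x = rep T y := by
  unfold rep
  rw [pc_eq hT h]

lemma rep_Rp (hT : VM F T) (x : ℕ) : rep T x ∈ Rp F T (col F T x) := by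
  have h1 := rep_mem hT x
  refine ⟨fun y hy => rep_le (hT.2.2.1 _ _ _ h1 hy), ?_⟩
  unfold col
  rw [pc_eq hT h1]

/-- different minimal elements lie in different pieces -/
lemma Rp_uniq (hT : VM F T) {n m x y : ℕ} (hx : x ∈ Rp F T n) (hy : y ∈ Rp F T m)
    (h : ac T 0 x y) : x = y :=
  le_antisymm (hx.1 y h) (hy.1 x (hT.2.1 x y h))

/-- the restriction of a back-and-forth position to a piece -/
lemma bf_pc (hE : S_EXT) {p : Set (ℕ × ℕ)} {x x' : ℕ} {o : Ordinal.{0}}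
    (h : BF (lift T) (lift T') univ univ o p) (hx : (x, x') ∈ p) :
    BF (lift T) (lift T') (pc T x) (pc T' x') o ∅ := by
  have h1 := hE T T' T T' univ univ (pc T x) (pc T' x') p ∅ 0 (subset_univ _) (subset_univ _)
    (by
      intro q hpq hq
      have hq' := hq.piso
      refine ⟨?_, ?_⟩
      · rw [union_empty]
        exact hq'.mono fun u hu => hu.1
      · intro u hu
        exact piso_ac hq' (hpq hx) hu) o (by rwa [zero_add])
  exact h1.subset (empty_subset _)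

/-- the rank which separates the types -/
lemma exists_rank (F : ℕ → R2 × Set ℕ) : ∃ β : Ordinal.{0}, β < Ordinal.omega 1 ∧
    ∀ n m, BF (lift (F n).1) (lift (F m).1) (F n).2 (F m).2 β ∅ →
      IsoOn (lift (F n).1) (lift (F m).1) (F n).2 (F m).2 ∅ := by
  have h : ∀ q : ℕ × ℕ, ∃ o : Ordinal.{0}, o < Ordinal.omega 1 ∧
      (BF (lift (F q.1).1) (lift (F q.2).1) (F q.1).2 (F q.2).2 o ∅ →
        IsoOn (lift (F q.1).1) (lift (F q.2).1) (F q.1).2 (F q.2).2 ∅) := by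
    intro q
    by_cases h1 : IsoOn (lift (F q.1).1) (lift (F q.2).1) (F q.1).2 (F q.2).2 ∅
    · exact ⟨0, Ordinal.omega_pos 1, fun _ => h1⟩
    · by_contra h2
      push Not at h2
      apply h1
      apply scott (empty_subset _)
      intro o ho
      exact (h2 o ho).1
  choose o ho1 ho2 using h
  refine ⟨iSup o, Ordinal.iSup_lt_omega_one ho1, fun n m hb => ?_⟩
  exact ho2 (n, m) (hb.mono (Ordinal.le_iSup o (n, m)))

/-- the key comparison: equivalent structures have the same number of pieces of type `n` -/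
lemma card_le (hE : S_EXT) (hT : VM F T) (hT' : VM F T') {β : Ordinal.{0}}
    (hβ : ∀ n m, BF (lift (F n).1) (lift (F m).1) (F n).2 (F m).2 β ∅ →
      IsoOn (lift (F n).1) (lift (F m).1) (F n).2 (F m).2 ∅)
    (hb : BF (lift T) (lift T') univ univ (β + Ordinal.omega0) ∅) (n : ℕ) (s : Finset ℕ)
    (hs : ∀ x ∈ s, x ∈ Rp F T n) :
    ∃ t : Finset ℕ, (∀ x ∈ t, x ∈ Rp F T' n) ∧ s.card ≤ t.card := by
  classical
  have hb1 : BF (lift T) (lift T') univ univ (β + (s.card : ℕ)) ∅ :=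
    Pool.Agent.H899R2.VP.BF_add_omega.1 hb s.card
  obtain ⟨t, ht, -, hbt⟩ := hb1.forth_list s.toList (by rw [Finset.length_toList])
    (fun x _ => mem_univ x)
  rw [empty_union] at hbt
  have hex : ∀ x : ℕ, ∃ x' : ℕ, x ∈ s → (x, x') ∈ zipSet s.toList t := by
    intro x
    by_cases hx : x ∈ s
    · obtain ⟨x', hx'⟩ := Pool.Agent.H899R2.VP.exists_zipSet_left ht.symm
        (Finset.mem_toList.2 hx)
      exact ⟨x', fun _ => hx'⟩
    · exact ⟨0, fun h => absurd h hx⟩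
  choose g hg using hex
  have hp := hbt.piso
  have hcol : ∀ x ∈ s, col F T' (g x) = n := by
    intro x hx
    have h1 := bf_pc hE hbt (hg x hx)
    have h2 := (col_spec hT x).bf β
    have h3 := (col_spec hT' (g x)).bf β
    have h4 := hβ _ _ (bf_trans0 (bf_trans0 h2 h1) (bf_symm0 h3))
    have h5 : IsoOn (lift T) (lift T') (pc T x) (pc T' (g x)) ∅ :=
      iso_trans0 (iso_trans0 (iso_symm0 (col_spec hT x)) h4) (col_spec hT' (g x))
    rw [← col_eq h5]
    exact (hs x hx).2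
  refine ⟨s.image (fun x => rep T' (g x)), ?_, ?_⟩
  · intro y hy
    rw [Finset.mem_image] at hy
    obtain ⟨x, hx, rfl⟩ := hy
    have h1 := rep_Rp hT' (g x)
    rwa [hcol x hx] at h1
  · rw [Finset.card_image_of_injOn]
    intro x hx y hy hxy
    rw [Finset.mem_coe] at hx hy
    have hxy' : rep T' (g x) = rep T' (g y) := hxy
    have h1 : ac T' 0 (g x) (g y) := by
      have h2 := rep_mem hT' (g x)
      have h3 := rep_mem hT' (g y)
      rw [hxy'] at h2
      exact hT'.2.2.1 _ _ _ h2 (hT'.2.1 _ _ h3)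
    have h2 : ac T 0 x y := (piso_ac hp (hg x hx) (hg y hy)).2 h1
    exact Rp_uniq hT (hs x hx) (hs y hy) h2

lemma encard_le' {A B : Set ℕ} (h : ∀ s : Finset ℕ, (∀ x ∈ s, x ∈ A) →
    ∃ t : Finset ℕ, (∀ x ∈ t, x ∈ B) ∧ s.card ≤ t.card) : A.encard ≤ B.encard := by
  by_contra hcon
  rw [not_le] at hcon
  have hB : B.Finite := by
    rw [← Set.encard_lt_top_iff]
    exact lt_of_lt_of_le hcon le_top
  have h1 : ((B.ncard + 1 : ℕ) : ℕ∞) ≤ A.encard := by
    rw [← hB.cast_ncard_eq] at hcon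
    push_cast
    exact Order.add_one_le_of_lt hcon
  obtain ⟨s, hsA, hsc⟩ := Set.exists_subset_encard_eq h1
  have hsf : s.Finite := by
    rw [← Set.encard_lt_top_iff, hsc]
    exact ENat.natCast_lt_top _
  obtain ⟨t, htB, htc⟩ := h hsf.toFinset (fun x hx => hsA (hsf.mem_toFinset.1 hx))
  have h2 : hsf.toFinset.card = B.ncard + 1 := by
    rw [← Set.ncard_eq_toFinset_card s hsf]
    have h3 : ((s.ncard : ℕ) : ℕ∞) = ((B.ncard + 1 : ℕ) : ℕ∞) := by
      rw [hsf.cast_ncard_eq]; exact hsc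
    exact_mod_cast h3
  have h3 : t.card ≤ B.ncard := by
    rw [← Set.ncard_coe_finset t]
    exact Set.ncard_le_ncard (fun x hx => htB x hx) hB
  omega

lemma equiv_of_encard {A B : Set ℕ} (h : A.encard = B.encard) : Nonempty (A ≃ B) := by
  have h1 : Cardinal.toENat (Cardinal.mk A) = Cardinal.toENat (Cardinal.mk B) := h
  have h2 := Cardinal.toENat_injOn (Set.mem_Iic.2 (Cardinal.mk_le_aleph0 (α := A)))
    (Set.mem_Iic.2 (Cardinal.mk_le_aleph0 (α := B))) h1
  exact Cardinal.eq.1 h2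

/-- equivalent structures are isomorphic -/
lemma iso_of_bf (hE : S_EXT) (hT : VM F T) (hT' : VM F T') {β : Ordinal.{0}}
    (hβ : ∀ n m, BF (lift (F n).1) (lift (F m).1) (F n).2 (F m).2 β ∅ →
      IsoOn (lift (F n).1) (lift (F m).1) (F n).2 (F m).2 ∅)
    (hb : BF (lift T) (lift T') univ univ (β + Ordinal.omega0) ∅) : RIso T T' := by
  classical
  have he : ∀ n, Nonempty (Rp F T n ≃ Rp F T' n) := by
    intro n
    apply equiv_of_encard
    apply le_antisymm
    · exact encard_le' fun s hs => card_le hE hT hT' hβ hb n s hs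
    · exact encard_le' fun s hs => card_le hE hT' hT hβ (bf_symm0 hb) n s hs
  have e : ∀ n, Rp F T n ≃ Rp F T' n := fun n => (he n).some
  -- the isomorphisms of the pieces
  have hq : ∀ (n : ℕ) (x : Rp F T n), IsoOn (lift T) (lift T') (pc T x) (pc T' (e n x)) ∅ := by
    intro n x
    exact iso_of_col hT hT' (x.2.2.trans (e n x).2.2.symm)
  choose q hq1 hq2 hq3 hq4 hq5 using hq
  -- the union
  set Q : Set (ℕ × ℕ) := {u | ∃ (n : ℕ) (x : Rp F T n), u ∈ q n x} with hQ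
  have hdis : ∀ (n : ℕ) (x : Rp F T n) (m : ℕ) (y : Rp F T m), ∀ u ∈ q n x, ∀ v ∈ q m y,
      (ac T 0 u.1 v.1 ∨ ac T' 0 u.2 v.2) → ∃ h : n = m, h ▸ x = y := by
    intro n x m y u hu v hv h
    have hu1 : ac T 0 x u.1 := (hq2 n x hu).1
    have hu2 : ac T' 0 (e n x) u.2 := (hq2 n x hu).2
    have hv1 : ac T 0 y v.1 := (hq2 m y hv).1
    have hv2 : ac T' 0 (e m y) v.2 := (hq2 m y hv).2
    rcases h with h | h
    · have h1 : ac T 0 x y := hT.2.2.1 _ _ _ hu1 (hT.2.2.1 _ _ _ h (hT.2.1 _ _ hv1))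
      have h2 := Rp_uniq hT x.2 y.2 h1
      have h3 : n = m := by
        rw [← x.2.2, ← y.2.2, h2]
      subst h3
      exact ⟨rfl, Subtype.ext h2⟩
    · have h1 : ac T' 0 (e n x) (e m y) :=
        hT'.2.2.1 _ _ _ hu2 (hT'.2.2.1 _ _ _ h (hT'.2.1 _ _ hv2))
      have h2 := Rp_uniq hT' (e n x).2 (e m y).2 h1
      have h3 : n = m := by
        rw [← (e n x).2.2, ← (e m y).2.2, h2]
      subst h3
      exact ⟨rfl, (e n).injective (Subtype.ext h2)⟩
  -- two elements in the same piece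
  have hsame : ∀ u ∈ Q, ∀ v ∈ Q, (ac T 0 u.1 v.1 ∨ ac T' 0 u.2 v.2) →
      ∃ (n : ℕ) (x : Rp F T n), u ∈ q n x ∧ v ∈ q n x := by
    rintro u ⟨n, x, hu⟩ v ⟨m, y, hv⟩ h
    obtain ⟨h1, h2⟩ := hdis n x m y u hu v hv h
    subst h1
    simp only at h2
    subst h2
    exact ⟨n, x, hu, hv⟩
  rw [riso_isoOn]
  refine ⟨Q, empty_subset _, fun _ _ => ⟨mem_univ _, mem_univ _⟩, ?_, ?_, ?_⟩
  · rw [piso_iff]
    refine ⟨?_, ?_, ?_, ?_⟩
    · intro u hu v hv
      constructor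
      · intro h
        obtain ⟨n, x, h1, h2⟩ := hsame u hu v hv (Or.inl (by rw [h]; exact hT.1 _))
        exact ((piso_iff.1 (hq3 n x)).1 u h1 v h2).1 h
      · intro h
        obtain ⟨n, x, h1, h2⟩ := hsame u hu v hv (Or.inr (by rw [h]; exact hT'.1 _))
        exact ((piso_iff.1 (hq3 n x)).1 u h1 v h2).2 h
    · intro u hu v hv
      constructor
      · intro h
        obtain ⟨n, x, h1, h2⟩ := hsame u hu v hv (Or.inl (hT.2.2.2.1 _ _ h))
        exact ((piso_iff.1 (hq3 n x)).2.1 u h1 v h2).1 h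
      · intro h
        obtain ⟨n, x, h1, h2⟩ := hsame u hu v hv (Or.inr (hT'.2.2.2.1 _ _ h))
        exact ((piso_iff.1 (hq3 n x)).2.1 u h1 v h2).2 h
    · intro k u hu v hv
      constructor
      · intro h
        obtain ⟨n, x, h1, h2⟩ := hsame u hu v hv (Or.inl (hT.2.2.2.2.1 _ _ _ h))
        exact ((piso_iff.1 (hq3 n x)).2.2.1 k u h1 v h2).1 h
      · intro h
        obtain ⟨n, x, h1, h2⟩ := hsame u hu v hv (Or.inr (hT'.2.2.2.2.1 _ _ _ h))
        exact ((piso_iff.1 (hq3 n x)).2.2.1 k u h1 v h2).2 h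
    · rintro k u ⟨n, x, hu⟩
      exact (piso_iff.1 (hq3 n x)).2.2.2 k u hu
  · intro x _
    have h1 := rep_Rp hT x
    have h2 : x ∈ pc T (⟨rep T x, h1⟩ : Rp F T (col F T x)) := hT.2.1 _ _ (rep_mem hT x)
    obtain ⟨y, hy⟩ := hq4 _ _ x h2
    exact ⟨y, _, _, hy⟩
  · intro y _
    have h1 := rep_Rp hT' y
    set r : Rp F T' (col F T' y) := ⟨rep T' y, h1⟩ with hr
    have h2 : y ∈ pc T' (e (col F T' y) ((e (col F T' y)).symm r)) := by
      rw [Equiv.apply_symm_apply]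
      exact hT'.2.1 _ _ (rep_mem hT' y)
    obtain ⟨x, hx⟩ := hq5 _ _ y h2
    exact ⟨x, _, _, hx⟩

end

/-- VM -/
theorem t_VM (hE : S_EXT) : S_VM := by
  classical
  intro F B hBm hBi hBV
  by_cases hperf : ∃ c : (ℕ → Bool) → R2, Continuous c ∧ (∀ A, c A ∈ B) ∧
      ∀ A A', RIso (c A) (c A') → A = A'
  · exact Or.inr hperf
  left
  set K : Set (St ar) := {M | M.1 = (fun _ _ => false) ∧ M.2 ∈ B} with hK
  have hKm : MeasurableSet K := by
    have e1 : K = (Prod.fst ⁻¹' {fun _ _ => false}) ∩ (Prod.snd ⁻¹' B) := rfl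
    rw [e1]
    exact (measurable_fst (measurableSet_singleton _)).inter (measurable_snd hBm)
  have hKl : ∀ M ∈ K, M = lift M.2 := fun M hM => Prod.ext hM.1 rfl
  have hlK : ∀ R ∈ B, lift R ∈ K := fun R hR => ⟨rfl, hR⟩
  have hfew : ¬ ∃ k : (ℕ → Bool) → St ar, Continuous k ∧ (∀ c, k c ∈ K) ∧
      ∀ c d, IsoOn (k c) (k d) univ univ ∅ → c = d := by
    rintro ⟨k, hkc, hkK, hkd⟩
    refine hperf ⟨fun A => (k A).2, continuous_snd.comp hkc, fun A => (hkK A).2, ?_⟩
    intro A A' hAA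
    refine hkd A A' ?_
    rw [hKl _ (hkK A), hKl _ (hkK A')]
    exact riso_isoOn.1 hAA
  obtain ⟨β, hβ1, hβ⟩ := exists_rank F
  have hβω : β + Ordinal.omega0 < Ordinal.omega 1 :=
    Ordinal.isPrincipal_add_omega 1 hβ1 Ordinal.omega0_lt_omega_one
  obtain ⟨lbl, hl⟩ := labels hKm hfew (β + Ordinal.omega0) hβω
  have hch : ∀ n : ℕ, ∃ f : R2, ∀ R ∈ B, lbl (lift R) [] = n → RIso f R := by
    intro n
    by_cases h : ∃ R ∈ B, lbl (lift R) [] = n
    · obtain ⟨R, hR, hn⟩ := h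
      refine ⟨R, fun R' hR' hn' => ?_⟩
      have h1 := hl _ (hlK R hR) _ (hlK R' hR') [] [] rfl (by rw [hn, hn'])
      exact iso_of_bf hE (hBV R hR) (hBV R' hR') hβ (h1.subset (empty_subset _))
    · exact ⟨fun _ _ => false, fun R' hR' hn' => absurd ⟨R', hR', hn'⟩ h⟩
  choose f hf using hch
  exact ⟨f, fun R hR => ⟨lbl (lift R) [], hf _ R hR rfl⟩⟩

end Pool.Agent.Y350.TF
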